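import Mathlib
import Pool.Agent.Lib_MP_236854_co.Defs
import Pool.Agent.Lib_MP_236854_co.Main

/-!
The set of lineons has an explicit (computably enumerable) description by polynomial inequalities
with rational coefficients.
-/

namespace Pool.Agent.Results.MP_236854_co.ExplicitLineons

open Pool.Agent.Lib_MP_236854_co

/-- **The set of lineons has an explicit description.** There is a computable sequence of
polynomials with rational coefficients, in the coordinates of `[0,1]^𝓜` (the variable `X c` is the
coordinate of the isomorphism class `enum c`, where `enum` is a computable enumeration of all the
isomorphism classes of finite models of `T_Lin`), such that the lineons are exactly the points at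
which all these polynomials are nonnegative. -/
theorem result :
    Function.Surjective enum ∧
    ∃ f : ℕ → List ((ℕ × ℕ × ℕ) × List ℕ), Computable f ∧
      ∀ x : ModelClass → Set.Icc (0 : ℝ) 1,
        IsLineon x ↔
          ∀ i, 0 ≤ MvPolynomial.aeval (fun c => (x (enum c) : ℝ)) (toPoly (f i)) :=
  main

end Pool.Agent.Results.MP_236854_co.ExplicitLineons
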